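import Mathlib
import Pool.Agent.EMP.Model

/-!
The theorem of Erdos and Moser does not imply the Ramsey statement for the pattern 1302 over
omega-models: there is a Turing ideal which is a model of EM and contains a colouring of pairs
such that no infinite set of the ideal avoids the pattern of any permutation; in particular no
infinite set of the ideal avoids 1302.
-/

namespace Pool.Agent.Results.MP_507498_lc.EMNotImplies1302

open Classical in
/-- the characteristic function of a set of natural numbers (a total function, written as a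
partially defined one, which is the type on which Mathlib defines relative computability) -/
noncomputable def chi (A : Set ℕ) : ℕ →. ℕ := fun n => Part.some (if n ∈ A then 1 else 0)

/-- `A` is Turing reducible to `B` (Mathlib's relation on characteristic functions) -/
def TuringLE (A B : Set ℕ) : Prop := TuringReducible (chi A) (chi B)

/-- the join of two sets of natural numbers -/
def join (A B : Set ℕ) : Set ℕ := {n | ∃ k, (n = 2 * k ∧ k ∈ A) ∨ (n = 2 * k + 1 ∧ k ∈ B)}

/-- Turing ideals: nonempty classes of sets closed downwards under Turing reducibility and closed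
under join -/
structure IsTuringIdeal (M : Set (Set ℕ)) : Prop where
  nonempty : M.Nonempty
  lower_mem : ∀ A B, B ∈ M → TuringLE A B → A ∈ M
  join_mem : ∀ A B, A ∈ M → B ∈ M → join A B ∈ M

/-- the set coding the colouring `f` of pairs `x < y` -/
def graph (f : ℕ → ℕ → Bool) : Set ℕ := {n | ∃ x y, x < y ∧ n = Nat.pair x y ∧ f x y = true}

/-- The arc `x → y` of the tournament given by `f`: for `x < y` we have `x → y` iff `f x y` is the
second colour, and `y → x` otherwise. -/
def Arc (f : ℕ → ℕ → Bool) (x y : ℕ) : Prop :=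
  (x < y ∧ f x y = true) ∨ (y < x ∧ f y x = false)

/-- `H` is `f`-transitive -/
def TransitiveOn (f : ℕ → ℕ → Bool) (H : Set ℕ) : Prop :=
  ∀ x ∈ H, ∀ y ∈ H, ∀ z ∈ H, Arc f x y → Arc f y z → Arc f x z

/-- the Erdos-Moser statement holds in the class `M` -/
def HoldsEM (M : Set (Set ℕ)) : Prop :=
  ∀ f : ℕ → ℕ → Bool, graph f ∈ M → ∃ H ∈ M, H.Infinite ∧ TransitiveOn f H

/-- `H` `f`-realizes the pattern `p` of size `l` -/
def Realizes (f : ℕ → ℕ → Bool) (H : Set ℕ) {l : ℕ} (p : Fin l → Fin l → Bool) : Prop :=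
  ∃ x : Fin l → ℕ, StrictMono x ∧ (∀ i, x i ∈ H) ∧ ∀ i j, i < j → f (x i) (x j) = p i j

/-- the pattern of a permutation: first colour iff the order is preserved -/
def permPattern {l : ℕ} (π : Equiv.Perm (Fin l)) : Fin l → Fin l → Bool :=
  fun i j => !decide (π i < π j)

/-- the pattern 1302 -/
def p1302 : Fin 4 → Fin 4 → Bool :=
  fun i j => !decide ((![1, 3, 0, 2] : Fin 4 → ℕ) i < (![1, 3, 0, 2] : Fin 4 → ℕ) j)

open Pool.Agent.EMP

/-! ### Translation -/

open Classical in
noncomputable def toOm (A : Set ℕ) : Om := fun n => decide (n ∈ A)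

lemma chi_eq (A : Set ℕ) : chi A = orc (toOm A) := by
  funext n
  unfold chi orc toOm
  by_cases h : n ∈ A <;> simp [h]

lemma turingLE_iff (A B : Set ℕ) : TuringLE A B ↔ TLE (toOm A) (toOm B) := by
  unfold TuringLE TLE TuringReducible
  rw [chi_eq, chi_eq]
  exact RecursiveIn.iff_nat

lemma toOm_join (A B : Set ℕ) : toOm (join A B) = jn (toOm A) (toOm B) := by
  funext n
  unfold toOm jn join
  by_cases h : n % 2 = 0
  · simp only [h, if_true]
    have e : n = 2 * (n / 2) := by omega
    apply decide_eq_decide.mpr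
    constructor
    · rintro ⟨k, hk | hk⟩
      · have : n / 2 = k := by omega
        rw [this]; exact hk.2
      · omega
    · intro hk
      exact ⟨n / 2, Or.inl ⟨e, hk⟩⟩
  · simp only [h, if_false]
    have e : n = 2 * (n / 2) + 1 := by omega
    apply decide_eq_decide.mpr
    constructor
    · rintro ⟨k, hk | hk⟩
      · omega
      · have : n / 2 = k := by omega
        rw [this]; exact hk.2
    · intro hk
      exact ⟨n / 2, Or.inr ⟨e, hk⟩⟩

lemma toOm_set (G : Om) : toOm {x | G x = true} = G := by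
  funext n
  unfold toOm
  by_cases h : G n = true <;> simp [h]

lemma mem_graph (f : ℕ → ℕ → Bool) (x y : ℕ) (h : x < y) :
    Nat.pair x y ∈ graph f ↔ f x y = true := by
  unfold graph
  constructor
  · rintro ⟨x', y', hlt, he, hf⟩
    have e1 := congrArg (fun t => (Nat.unpair t).1) he
    have e2 := congrArg (fun t => (Nat.unpair t).2) he
    simp only [Nat.unpair_pair] at e1 e2
    rw [e1, e2]; exact hf
  · intro hf
    exact ⟨x, y, h, rfl, hf⟩

lemma toOm_graph_pair (f : ℕ → ℕ → Bool) (x y : ℕ) (h : x < y) :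
    toOm (graph f) (Nat.pair x y) = f x y := by
  unfold toOm
  have := mem_graph f x y h
  cases hf : f x y
  · simp [this, hf]
  · simp [this, hf]

lemma toOm_graph (f : ℕ → ℕ → Bool) : toOm (graph f) = code f := by
  funext n
  unfold toOm code graph
  rw [Bool.eq_iff_iff]
  simp only [decide_eq_true_eq, Set.mem_ofPred_eq, Bool.and_eq_true]
  constructor
  · rintro ⟨x, y, h1, h2, h3⟩
    rw [h2, Nat.unpair_pair]
    exact ⟨h1, h3⟩
  · rintro ⟨h1, h2⟩
    exact ⟨n.unpair.1, n.unpair.2, h1, (Nat.pair_unpair n).symm, h2⟩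

lemma transitive_of_triples {f : ℕ → ℕ → Bool} {H : Set ℕ}
    (h : ∀ x y z, x < y → y < z → x ∈ H → y ∈ H → z ∈ H →
      ¬ (f x y = f y z ∧ f x y ≠ f x z)) : TransitiveOn f H := by
  intro x hx y hy z hz hxy hyz
  unfold Arc at *
  rcases hxy with ⟨h1, h2⟩ | ⟨h1, h2⟩ <;> rcases hyz with ⟨h3, h4⟩ | ⟨h3, h4⟩
  · have := h x y z h1 h3 hx hy hz
    left
    refine ⟨by omega, ?_⟩
    rw [h2, h4] at this
    cases hc : f x z
    · exact absurd ⟨rfl, by rw [hc]; simp⟩ this
    · rfl
  · rcases lt_trichotomy x z with hlt | heq | hgt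
    · left
      refine ⟨hlt, ?_⟩
      have := h x z y hlt h3 hx hz hy
      rw [h2, h4] at this
      cases hc : f x z
      · exact absurd ⟨hc, by rw [hc]; simp⟩ this
      · rfl
    · subst heq; rw [h2] at h4; simp at h4
    · right
      refine ⟨hgt, ?_⟩
      have := h z x y hgt h1 hz hx hy
      rw [h2, h4] at this
      cases hc : f z x
      · rfl
      · exact absurd ⟨hc, by rw [hc]; simp⟩ this
  · rcases lt_trichotomy x z with hlt | heq | hgt
    · left
      refine ⟨hlt, ?_⟩
      have := h y x z h1 hlt hy hx hz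
      rw [h2, h4] at this
      cases hc : f x z
      · exact absurd ⟨hc.symm, by simp⟩ this
      · rfl
    · subst heq; rw [h2] at h4; simp at h4
    · right
      refine ⟨hgt, ?_⟩
      have := h y z x h3 hgt hy hz hx
      rw [h2, h4] at this
      cases hc : f z x
      · rfl
      · exact absurd ⟨hc.symm, by simp⟩ this
  · have := h z y x h3 h1 hz hy hx
    right
    refine ⟨by omega, ?_⟩
    rw [h2, h4] at this
    cases hc : f z x
    · rfl
    · exact absurd ⟨rfl, by rw [hc]; simp⟩ this

/-- the pattern of a permutation of `m + 1` points as a finite set -/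
def patSet {m : ℕ} (π : Fin (m + 1) → ℕ) : Finset (ℕ × ℕ) :=
  ((Finset.univ : Finset (Fin (m + 1) × Fin (m + 1))).filter (fun q => ¬ π q.1 < π q.2)).image
    (fun q => ((q.1 : ℕ), (q.2 : ℕ)))

lemma pat_patSet {m : ℕ} (π : Fin (m + 1) → ℕ) (i j : Fin (m + 1)) :
    pat (patSet π) i j = !decide (π i < π j) := by
  unfold pat patSet
  rw [Bool.eq_iff_iff]
  simp only [decide_eq_true_eq, Finset.mem_image, Finset.mem_filter, Finset.mem_univ, true_and,
    Prod.mk.injEq, Bool.not_eq_true', decide_eq_false_iff_not]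
  constructor
  · rintro ⟨q, h1, h2, h3⟩
    have e1 : q.1 = i := Fin.ext h2
    have e2 : q.2 = j := Fin.ext h3
    rw [← e1, ← e2]; exact h1
  · intro h
    exact ⟨(i, j), h, rfl, rfl⟩

lemma Trp_patSet {m : ℕ} (π : Fin (m + 1) → ℕ) (hπ : Function.Injective π) :
    Trp (pat (patSet π)) m := by
  intro a b c hab hbc hc
  have e1 := pat_patSet π ⟨a, by omega⟩ ⟨b, by omega⟩
  have e2 := pat_patSet π ⟨b, by omega⟩ ⟨c, by omega⟩
  have e3 := pat_patSet π ⟨a, by omega⟩ ⟨c, by omega⟩
  simp only at e1 e2 e3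
  rw [e1, e2, e3]
  rintro ⟨h1, h2⟩
  have hne1 : π ⟨a, by omega⟩ ≠ π ⟨b, by omega⟩ := fun h => by
    have := congrArg Fin.val (hπ h); simp only at this; omega
  have hne2 : π ⟨b, by omega⟩ ≠ π ⟨c, by omega⟩ := fun h => by
    have := congrArg Fin.val (hπ h); simp only at this; omega
  by_cases q1 : π ⟨a, by omega⟩ < π ⟨b, by omega⟩
  · by_cases q2 : π ⟨b, by omega⟩ < π ⟨c, by omega⟩
    · have q3 : π ⟨a, by omega⟩ < π ⟨c, by omega⟩ := lt_trans q1 q2
      simp [q1, q3] at h2
    · simp [q1, q2] at h1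
  · by_cases q2 : π ⟨b, by omega⟩ < π ⟨c, by omega⟩
    · simp [q1, q2] at h1
    · have q3 : ¬ π ⟨a, by omega⟩ < π ⟨c, by omega⟩ := by omega
      simp [q1, q3] at h2

lemma realizes_of {f : ℕ → ℕ → Bool} {H : Set ℕ}
    (h : ∀ S m, Trp (pat S) m →
      ∃ x : ℕ → ℕ, (∀ i j, i < j → j ≤ m → x i < x j) ∧ (∀ i, i ≤ m → x i ∈ H) ∧
        ∀ i j, i < j → j ≤ m → f (x i) (x j) = pat S i j)
    {l : ℕ} (π : Fin l → ℕ) (hπ : Function.Injective π) :
    Realizes f H (fun i j => !decide (π i < π j)) := by
  cases l with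
  | zero =>
    exact ⟨fun i => i.elim0, fun i => i.elim0, fun i => i.elim0, fun i => i.elim0⟩
  | succ m =>
    obtain ⟨x, h1, h2, h3⟩ := h (patSet π) m (Trp_patSet π hπ)
    refine ⟨fun i => x i, ?_, ?_, ?_⟩
    · intro i j hij
      exact h1 i j hij (by omega)
    · intro i
      exact h2 i (by omega)
    · intro i j hij
      have h4 := h3 i j hij (by omega)
      rw [pat_patSet π i j] at h4
      exact h4

/-- There are a Turing ideal `M` which is a model of the Erdos-Moser statement and a colouring `f`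
in `M` such that every infinite set in `M` realizes 1302, and in fact the pattern of every
permutation; so the Erdos-Moser statement does not imply the Ramsey statement for 1302 over
omega-models. -/
theorem result : ∃ M : Set (Set ℕ), IsTuringIdeal M ∧ HoldsEM M ∧
    ∃ f : ℕ → ℕ → Bool, graph f ∈ M ∧ ∀ H ∈ M, H.Infinite →
      Realizes f H p1302 ∧
        ∀ (l : ℕ) (π : Equiv.Perm (Fin l)), Realizes f H (permPattern π) := by
  obtain ⟨f, W, h0, hle, hEM, hreal⟩ := model
  have hmono : ∀ n m, n ≤ m → TLE (W n) (W m) := by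
    intro n m hnm
    induction m, hnm using Nat.le_induction with
    | base => exact TLE.refl _
    | succ m _ ih => exact TLE.trans ih (hle m)
  have hf : graph f ∈ {A : Set ℕ | ∃ n, TLE (toOm A) (W n)} := by
    refine ⟨0, ?_⟩
    rw [toOm_graph, h0]
    exact TLE.refl _
  refine ⟨{A | ∃ n, TLE (toOm A) (W n)}, ⟨⟨_, hf⟩, ?_, ?_⟩, ?_, f, hf, ?_⟩
  · rintro A B ⟨n, hn⟩ hAB
    exact ⟨n, TLE.trans ((turingLE_iff A B).mp hAB) hn⟩
  · rintro A B ⟨n, hn⟩ ⟨m, hm⟩
    refine ⟨max n m, ?_⟩
    rw [toOm_join]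
    exact TLE_jn (TLE.trans hn (hmono _ _ (le_max_left _ _)))
      (TLE.trans hm (hmono _ _ (le_max_right _ _)))
  · rintro f' ⟨n, hn⟩
    obtain ⟨m, G, h1, h2, h3⟩ := hEM n _ hn
    refine ⟨{x | G x = true}, ⟨m, ?_⟩, h2, ?_⟩
    · rw [toOm_set]; exact h1
    · apply transitive_of_triples
      intro x y z hxy hyz hx hy hz
      have := h3 x y z hxy hyz hx hy hz
      rw [toOm_graph_pair _ _ _ hxy, toOm_graph_pair _ _ _ hyz,
        toOm_graph_pair _ _ _ (hxy.trans hyz)] at this
      exact this
  · rintro H ⟨n, hn⟩ hinf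
    have hset : {x | toOm H x = true} = H := by
      ext x
      unfold toOm
      simp
    have hR : ∀ S m, Trp (pat S) m →
        ∃ x : ℕ → ℕ, (∀ i j, i < j → j ≤ m → x i < x j) ∧ (∀ i, i ≤ m → x i ∈ H) ∧
          ∀ i j, i < j → j ≤ m → f (x i) (x j) = pat S i j := by
      intro S m hS
      obtain ⟨x, h1, h2, h3⟩ := hreal n (toOm H) hn (by rw [hset]; exact hinf) S m hS
      refine ⟨x, h1, fun i hi => ?_, h3⟩
      have := h2 i hi
      rw [← hset]
      exact this
    refine ⟨?_, ?_⟩
    · have hinj : Function.Injective (![1, 3, 0, 2] : Fin 4 → ℕ) := by decide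
      exact realizes_of hR _ hinj
    · intro l π
      have hinj : Function.Injective (fun i : Fin l => ((π i : Fin l) : ℕ)) := by
        intro i j hij
        exact π.injective (Fin.ext hij)
      exact realizes_of hR _ hinj

end Pool.Agent.Results.MP_507498_lc.EMNotImplies1302
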